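import Pool.Agent.H1.CG.Cls
import Pool.Agent.H1.CG.Nu

/-!
# [CCA GLOBAL] An abstract predicate for the elements which move far (version 2)

`Lox Hs L`: `L z` implies that `z` skewers a half-space; positive powers; infinite order; an element which commutes with some `h`, `L h`, and is
not in `L`, has finite order.
-/

set_option autoImplicit false

namespace Pool.Agent.H1.CH

open Pool.Agent.H98.FJ Pool.Agent.H37.PT Pool.Agent.H1.CG
open scoped Pointwise

/-- the predicate `L` behaves like the loxodromic elements of an acylindrical action -/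
structure Lox {G V : Type} [Group G] [MulAction G V] (Hs : Set (Set V)) (L : G → Prop) : Prop where
  sk : ∀ z, L z → ∃ w ∈ Hs, Sk z w
  pow : ∀ z, ∀ m : ℕ, 0 < m → L z → L (z ^ m)
  inf : ∀ z, L z → ¬ IsOfFinOrder z
  tor : ∀ a h : G, a * h = h * a → L h → ¬ L a → IsOfFinOrder a

end Pool.Agent.H1.CH
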