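import Pool.Agent.H1.CG.Defs

/-!
# [CCA GLOBAL Skw] (4.1): elements with unbounded orbits skewer a half-space

Let `x : V`. `K = {k ∈ Hs | x ∉ k ∧ z • x ∈ k}`, finite. The orbit of `x` under the powers of `z` is unbounded, so there is `j : ℕ` such that
`J = {k ∈ Hs | x ∉ k ∧ z ^ j • x ∈ k}` has more than `n * K.ncard` elements (negative powers: the number of half-spaces between `x` and
`z ^ (-j) • x` is the number between `z ^ j • x` and `x`, complements). For `k ∈ J` there is `i < j` with `z ^ i • x ∉ k`, `z ^ (i + 1) • x ∈ k`,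
so `z ^ (-i) • k ∈ K`: a map `J → K`. A fibre has more than `n` elements (`Finset.exists_lt_card_fiber_of_mul_lt_card_of_maps_to`), so two
different elements `w, w'` of this fibre do not cross (`dim`); they do not contain `x` and contain `z ^ j • x`, so they are nested: `w ⊂ w'`, and
`w' = z ^ a • w`, `a : ℤ`. If `a < 0` then `z ^ (-a) • w' = w ⊂ w'`. If `a > 0` then `z ^ a • wᶜ = w'ᶜ ⊂ wᶜ`. (`K` empty: `J` empty.)
-/

set_option autoImplicit false

namespace Pool.Agent.H1.CH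

open Pool.Agent.H98.FJ Pool.Agent.H37.PT Pool.Agent.H1.CG
open scoped Pointwise

variable {G V : Type} [Group G] [MulAction G V] {Hs : Set (Set V)} {n : ℕ}

private theorem step {z : G} {x : V} {k : Set V} : ∀ j : ℕ, x ∉ k → z ^ j • x ∈ k →
    ∃ i : ℕ, z ^ i • x ∉ k ∧ z ^ (i + 1) • x ∈ k := by
  intro j
  induction j with
  | zero =>
    intro h1 h2
    rw [pow_zero, one_smul] at h2
    exact absurd h2 h1
  | succ j ih =>
    intro h1 h2
    by_cases h3 : z ^ j • x ∈ k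
    · exact ih h1 h3
    · exact ⟨j, h3, h2⟩

private theorem nested {z : G} {w w' : Set V} (hc : ∀ h ∈ Hs, hᶜ ∈ Hs) (hw : w ∈ Hs) (hw' : w' ∈ Hs) {k : Set V} {i i' : ℕ}
    (e : (z ^ i)⁻¹ • w = k) (e' : (z ^ i')⁻¹ • w' = k) (h : w ⊂ w') : ∃ w ∈ Hs, Sk z w := by
  have e1 : w = z ^ i • k := by rw [← e, smul_inv_smul]
  have e2 : w' = z ^ i' • k := by rw [← e', smul_inv_smul]
  rcases lt_trichotomy i i' with hi | hi | hi
  · refine ⟨wᶜ, hc w hw, i' - i, by omega, ?_⟩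
    have h1 : z ^ (i' - i) • w = w' := by
      rw [e1, e2, smul_smul, ← pow_add]
      congr 2
      omega
    rw [Set.smul_set_compl, h1]
    exact compl_lt_compl_iff_lt.2 h
  · exfalso
    rw [e1, e2, hi] at h
    exact absurd rfl h.ne
  · refine ⟨w', hw', i - i', by omega, ?_⟩
    have h1 : z ^ (i - i') • w' = w := by
      rw [e1, e2, smul_smul, ← pow_add]
      congr 2
      omega
    rw [h1]
    exact h

theorem skewer_ub (hS : Sys G Hs n) {z : G} {x : V}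
    (hz : ∀ D : ℕ, ∃ i : ℤ, D < {h ∈ Hs | x ∈ h ∧ z ^ i • x ∉ h}.ncard) : ∃ w ∈ Hs, Sk z w := by
  classical
  have hfin : ∀ a b : V, {k ∈ Hs | a ∉ k ∧ b ∈ k}.Finite := by
    intro a b
    refine (hS.fin b a).subset ?_
    rintro k ⟨h1, h2, h3⟩
    exact ⟨h1, h3, h2⟩
  let K : Finset (Set V) := (hfin x (z • x)).toFinset
  have hK : ∀ k, k ∈ K ↔ k ∈ Hs ∧ x ∉ k ∧ z • x ∈ k := fun k => (hfin x (z • x)).mem_toFinset
  -- a power which moves `x` far
  obtain ⟨j, hj⟩ : ∃ j : ℕ, n * K.card < {k ∈ Hs | x ∉ k ∧ z ^ j • x ∈ k}.ncard := by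
    by_contra hcon
    push Not at hcon
    obtain ⟨i, hi⟩ := hz (n * K.card)
    refine absurd hi (not_lt.2 ?_)
    obtain ⟨j, rfl | rfl⟩ := i.eq_nat_or_neg
    · refine le_trans ?_ (hcon j)
      rw [← Set.ncard_image_of_injective _ (compl_injective (α := Set V))]
      refine Set.ncard_le_ncard ?_ (hfin x (z ^ j • x))
      rintro _ ⟨k, ⟨h1, h2, h3⟩, rfl⟩
      refine ⟨hS.compl k h1, fun h4 => h4 h2, ?_⟩
      have h5 : z ^ (j : ℤ) • x ∉ k := h3
      rw [zpow_natCast] at h5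
      exact h5
    · refine le_trans ?_ (hcon j)
      rw [← Set.ncard_image_of_injective _ (MulAction.injective (z ^ j) (β := Set V))]
      refine Set.ncard_le_ncard ?_ (hfin x (z ^ j • x))
      rintro _ ⟨k, ⟨h1, h2, h3⟩, rfl⟩
      refine ⟨hS.smul _ k h1, ?_, Set.smul_mem_smul_set h2⟩
      have h5 : z ^ (-(j : ℤ)) • x ∉ k := h3
      rw [zpow_neg, zpow_natCast] at h5
      intro h6
      exact h5 (Set.mem_smul_set_iff_inv_smul_mem.1 h6)
  let J : Finset (Set V) := (hfin x (z ^ j • x)).toFinset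
  have hJ : ∀ k, k ∈ J ↔ k ∈ Hs ∧ x ∉ k ∧ z ^ j • x ∈ k := fun k => (hfin x (z ^ j • x)).mem_toFinset
  have hJc : K.card * n < J.card := by
    rw [mul_comm, ← Set.ncard_eq_toFinset_card _ (hfin x (z ^ j • x))]
    exact hj
  have hstep : ∀ k : Set V, ∃ i : ℕ, k ∈ J → z ^ i • x ∉ k ∧ z ^ (i + 1) • x ∈ k := by
    intro k
    by_cases hk : k ∈ J
    · obtain ⟨-, h2, h3⟩ := (hJ k).1 hk
      obtain ⟨i, hi⟩ := step j h2 h3
      exact ⟨i, fun _ => hi⟩
    · exact ⟨0, fun h => absurd h hk⟩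
  choose ι hι using hstep
  obtain ⟨k0, hk0, hcard⟩ := Finset.exists_lt_card_fiber_of_mul_lt_card_of_maps_to (s := J) (t := K)
    (f := fun k => (z ^ ι k)⁻¹ • k) (by
      intro k hk
      obtain ⟨h1, h2⟩ := hι k hk
      refine (hK _).2 ⟨hS.smul _ k ((hJ k).1 hk).1, ?_, ?_⟩
      · intro h3
        rw [Set.mem_smul_set_iff_inv_smul_mem, inv_inv] at h3
        exact h1 h3
      · rw [Set.mem_smul_set_iff_inv_smul_mem, inv_inv, smul_smul, ← pow_succ]
        exact h2) hJc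
  have hnot : ¬ ((J.filter fun k => (z ^ ι k)⁻¹ • k = k0 : Finset (Set V)) : Set (Set V)).Pairwise Cr := by
    intro hp
    have h1 := hS.dim _ (fun k hk => ((hJ k).1 (Finset.mem_filter.1 hk).1).1) hp
    omega
  simp only [Set.Pairwise, not_forall] at hnot
  obtain ⟨w, hw, w', hw', hne, hcr⟩ := hnot
  obtain ⟨hwJ, hwe⟩ := Finset.mem_filter.1 hw
  obtain ⟨hwJ', hwe'⟩ := Finset.mem_filter.1 hw'
  obtain ⟨a1, a2, a3⟩ := (hJ w).1 hwJ
  obtain ⟨b1, b2, b3⟩ := (hJ w').1 hwJ'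
  by_cases h1 : w ⊆ w'
  · exact nested hS.compl a1 b1 hwe hwe' (h1.ssubset_of_ne hne)
  · by_cases h2 : w' ⊆ w
    · exact nested hS.compl b1 a1 hwe' hwe (h2.ssubset_of_ne hne.symm)
    · exact absurd ⟨h1, h2, fun h3 => h3 a3 b3, fun h3 => b2 (h3 a2)⟩ hcr

end Pool.Agent.H1.CH
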