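import Pool.Agent.H1.CH.Defs

/-!
# [CCA GLOBAL Vec] (4.4): the translation vectors of an abelian group

`τ x i = nu (e i) x0 (x • x0)`, `e` from `exists_cls`.
-/

set_option autoImplicit false

namespace Pool.Agent.H1.CH

open Pool.Agent.H98.FJ Pool.Agent.H37.PT Pool.Agent.H1.CG
open scoped Pointwise

variable {G V : Type} [Group G] [MulAction G V] {Hs : Set (Set V)} {n : ℕ} {A : Subgroup G} {L : G → Prop}

theorem exists_tau (hS : Sys G Hs n) (hL : Lox Hs L) [Nonempty V] (hA : ∀ x ∈ A, ∀ y ∈ A, x * y = y * x) (hl : ∃ h ∈ A, L h) :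
    ∃ τ : G → Fin (2 * n) → ℤ, (∀ x ∈ A, ∀ y ∈ A, τ (x * y) = τ x + τ y) ∧ (∀ x ∈ A, τ x = 0 → IsOfFinOrder x) ∧
      ∀ h0 ∈ A, ∃ s : St A → Fin (2 * n) → Fin (2 * n), ∀ g g' : St A, s g = s g' → ∀ m m' : ℕ,
        m' • τ ((g : G) * h0 ^ m * (g : G)⁻¹) = m • τ ((g' : G) * h0 ^ m' * (g' : G)⁻¹) := by
  classical
  obtain ⟨x0⟩ := ‹Nonempty V›
  have : Nonempty V := ⟨x0⟩
  obtain ⟨e, he1, he2, he3, he4⟩ := exists_cls (A := A) hS hA
  refine ⟨fun x i => nu (e i) x0 (x • x0), ?_, ?_, ?_⟩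
  · intro x hx y _
    funext i
    show nu (e i) x0 ((x * y) • x0) = nu (e i) x0 (x • x0) + nu (e i) x0 (y • x0)
    rw [nu_add hS.fin (he1 i) x0 (x • x0) ((x * y) • x0), mul_smul]
    have h1 := nu_smul (e i) x x0 (y • x0)
    rw [he2 i x hx] at h1
    rw [h1]
  · intro x hx hτ
    obtain ⟨h0, hh0, hlh⟩ := hl
    refine hL.tor x h0 (hA x hx h0 hh0) hlh fun hlx => ?_
    obtain ⟨w, hw, hsk⟩ := hL.sk x hlx
    have hne : (Sg A w).Nonempty := ⟨x, ⟨1, one_pos, by rwa [pow_one]⟩, hsk⟩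
    obtain ⟨i, hi⟩ := he3 w hw hne
    have h0 : nu (e i) x0 (x • x0) = 0 := congrFun hτ i
    set P := n.factorial with hP
    have hP0 : 0 < P := Nat.factorial_pos n
    -- all the half-spaces in the class are skewered by `x ^ P`
    have hk : ∀ k ∈ e i, x ^ P • k ⊂ k := by
      intro k hk
      rw [hi] at hk
      have hxk : x ∈ Sg A k := by
        rw [hk.2]
        exact ⟨⟨1, one_pos, by rwa [pow_one]⟩, hsk⟩
      obtain ⟨m, hm, h1⟩ := hxk.2
      have h2 : (x ^ P) ^ m • k ⊂ k := by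
        rw [← pow_mul, mul_comm, pow_mul]
        exact cg_pow_ssub h1 hP0
      rcases tri_A hS hA hk.1 ⟨x, hxk⟩ hx with h3 | h3 | h3
      · exfalso
        have h4 : ∀ m : ℕ, (x ^ P) ^ m • k = k := by
          intro m
          induction m with
          | zero => rw [pow_zero, one_smul]
          | succ m ih => rw [pow_succ, mul_smul, h3, ih]
        rw [h4] at h2
        exact (lt_irrefl k) h2
      · exact h3
      · exfalso
        have h4 : ∀ m : ℕ, k ⊆ (x ^ P) ^ m • k := by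
          intro m
          induction m with
          | zero => rw [pow_zero, one_smul]
          | succ m ih =>
            rw [pow_succ, mul_smul]
            exact ih.trans (Set.smul_set_mono h3.1)
        exact h2.2 (h4 m)
    have hwe : w ∈ e i := by
      rw [hi]
      exact ⟨hw, rfl⟩
    have hpos : 0 < nu (e i) x0 (x ^ P • x0) := by
      refine nu_pos hS.fin (he1 i) ?_ ?_
      · intro k hk' hx0
        exact (hk k hk').1 (Set.smul_mem_smul_set hx0)
      · -- a positive term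
        obtain ⟨i0, h1⟩ := absorb hS hw (hk w hwe) x0
        obtain ⟨i1, h2⟩ := absorb' hS hw (hk w hwe) x0
        have hdA : x ^ P ∈ A := A.pow_mem hx P
        have h3 : ∃ j : ℕ, ((x ^ P) ^ j * (x ^ P)⁻¹ ^ i1) • x0 ∈ w := by
          refine ⟨i0 + i1, ?_⟩
          have e1 : (x ^ P) ^ (i0 + i1) * (x ^ P)⁻¹ ^ i1 = (x ^ P) ^ i0 := by
            rw [pow_add, mul_assoc, inv_pow, mul_inv_cancel, mul_one]
          rw [e1]
          exact h1 i0 le_rfl
        have hj := Nat.find_spec h3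
        have hj0 : Nat.find h3 ≠ 0 := by
          intro h4
          rw [h4, pow_zero, one_mul] at hj
          exact h2 i1 le_rfl hj
        obtain ⟨j, hjj⟩ : ∃ j, Nat.find h3 = j + 1 := ⟨Nat.find h3 - 1, by omega⟩
        have hjm : ((x ^ P) ^ j * (x ^ P)⁻¹ ^ i1) • x0 ∉ w := Nat.find_min h3 (by omega)
        rw [hjj] at hj
        set t : G := (x ^ P) ^ j * (x ^ P)⁻¹ ^ i1 with ht
        have htA : t ∈ A := A.mul_mem (A.pow_mem hdA _) (A.pow_mem (A.inv_mem hdA) _)
        refine ⟨t⁻¹ • w, ?_, ?_, ?_⟩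
        · rw [← he2 i t⁻¹ (A.inv_mem htA)]
          exact Set.smul_mem_smul_set hwe
        · rw [Set.mem_inv_smul_set_iff]
          exact hjm
        · rw [Set.mem_inv_smul_set_iff, ← mul_smul, hA t htA _ hdA, ht, ← mul_assoc, ← pow_succ']
          exact hj
    have h5 : nu (e i) x0 (x ^ P • x0) = P * nu (e i) x0 (x • x0) := nu_pow hS.fin (he1 i) (he2 i x hx) x0 P
    rw [h5, h0, mul_zero] at hpos
    exact lt_irrefl _ hpos
  · intro h0 hh0
    have hs : ∀ (g : St A) (i : Fin (2 * n)), ∃ j, (g : G)⁻¹ • e i = e j := fun g i => he4 i _ ((St A).inv_mem g.2)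
    choose s hs using hs
    refine ⟨s, ?_⟩
    have key : ∀ (g : St A) (i : Fin (2 * n)) (m : ℕ), nu (e i) x0 (((g : G) * h0 ^ m * (g : G)⁻¹) • x0) =
        m * nu (e (s g i)) x0 (h0 • x0) := by
      intro g i m
      have h1 := nu_smul (e i) (g : G)⁻¹ x0 (((g : G) * h0 ^ m * (g : G)⁻¹) • x0)
      rw [hs g i] at h1
      have h2 : (g : G)⁻¹ • ((g : G) * h0 ^ m * (g : G)⁻¹) • x0 = h0 ^ m • ((g : G)⁻¹ • x0) := by
        rw [← mul_smul, ← mul_smul]
        congr 1
        group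
      rw [h2] at h1
      rw [← h1, nu_pow hS.fin (he1 _) (he2 _ _ hh0), nu_base hS.fin (he1 _) (he2 _ _ hh0) ((g : G)⁻¹ • x0) x0]
    intro g g' hgg m m'
    funext i
    show m' • nu (e i) x0 (((g : G) * h0 ^ m * (g : G)⁻¹) • x0) = m • nu (e i) x0 (((g' : G) * h0 ^ m' * (g' : G)⁻¹) • x0)
    rw [key, key, hgg, nsmul_eq_mul, nsmul_eq_mul]
    ring

end Pool.Agent.H1.CH
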